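import Pool.Agent.H91.IdxRange

set_option autoImplicit false

open Pool.Agent.H91.IdxRange in
theorem Pool.Agent.Results.MP_046d9d_an.ComplexRange.result (k : ℕ) (hk : 2 ≤ k) :
    {r : ℝ | ∃ (X : Type) (_ : NormedAddCommGroup X) (_ : NormedSpace ℂ X),
      CompleteSpace X ∧ Nontrivial X ∧ idx X k = r} =
      Set.Icc ((k : ℝ) ^ ((k : ℝ) / (1 - k))) 1 :=
  main k hk
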